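import Pool.Agent.NUP.MF.Const
import Mathlib.Analysis.SpecialFunctions.SmoothTransition
import Mathlib.Analysis.Calculus.IteratedDeriv.Lemmas

/-!
# The current of TARGET-A

`cur e T J t = J * chi e (t / T)`: a smooth even function with values in `[0, J]`, equal to `J`
for `|t| ≤ (1 - 2 e) T`, to `0` for `|t| ≥ (1 - e) T`, with derivatives `O(J / T^k)` and energy
`∫∫ h'(t) V(t - s) h'(s) = O(J^2 / T)`.
-/

set_option autoImplicit false

open MeasureTheory Set

namespace NUCUR

noncomputable section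

/-- the profile -/
def chi (e x : ℝ) : ℝ :=
  Real.smoothTransition (((1 - e) - x) / e) * Real.smoothTransition (((1 - e) + x) / e)

lemma chi_neg (e x : ℝ) : chi e (-x) = chi e x := by
  unfold chi
  rw [mul_comm, sub_neg_eq_add, ← sub_eq_add_neg]

lemma chi_nonneg (e x : ℝ) : 0 ≤ chi e x :=
  mul_nonneg (Real.smoothTransition.nonneg _) (Real.smoothTransition.nonneg _)

lemma chi_le_one (e x : ℝ) : chi e x ≤ 1 := by
  have h := mul_le_mul (Real.smoothTransition.le_one (((1 - e) - x) / e))
    (Real.smoothTransition.le_one (((1 - e) + x) / e)) (Real.smoothTransition.nonneg _) zero_le_one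
  simpa [chi] using h

lemma chi_one {e x : ℝ} (he : 0 < e) (hx : |x| ≤ 1 - 2 * e) : chi e x = 1 := by
  obtain ⟨h1, h2⟩ := abs_le.1 hx
  unfold chi
  rw [Real.smoothTransition.one_of_one_le, Real.smoothTransition.one_of_one_le, mul_one]
  · rw [le_div_iff₀ he]; linarith
  · rw [le_div_iff₀ he]; linarith

lemma chi_zero {e x : ℝ} (he : 0 < e) (hx : 1 - e ≤ |x|) : chi e x = 0 := by
  unfold chi
  rcases le_abs.1 hx with h | h
  · rw [Real.smoothTransition.zero_of_nonpos, zero_mul]
    exact div_nonpos_of_nonpos_of_nonneg (by linarith) he.le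
  · rw [Real.smoothTransition.zero_of_nonpos (x := ((1 - e) + x) / e), mul_zero]
    exact div_nonpos_of_nonpos_of_nonneg (by linarith) he.le

lemma chi_contDiff (e : ℝ) {n : ℕ∞} : ContDiff ℝ n (chi e) := by
  unfold chi
  apply ContDiff.mul
  · exact Real.smoothTransition.contDiff.comp
      ((contDiff_const.sub contDiff_id).div_const e)
  · exact Real.smoothTransition.contDiff.comp
      ((contDiff_const.add contDiff_id).div_const e)

lemma chi_supp {e : ℝ} (he : 0 < e) : HasCompactSupport (chi e) := by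
  apply HasCompactSupport.of_support_subset_isCompact (isCompact_Icc (a := -(1 - e)) (b := 1 - e))
  intro x hx
  by_contra hn
  apply hx
  apply chi_zero he
  rw [mem_Icc, not_and_or, not_le, not_le] at hn
  rcases hn with h | h
  · have := neg_abs_le x
    linarith
  · exact h.le.trans (le_abs_self x)

lemma deriv_supp {f : ℝ → ℝ} (hf : HasCompactSupport f) (k : ℕ) :
    HasCompactSupport (iteratedDeriv k f) := by
  induction k with
  | zero => simpa using hf
  | succ n ih =>
    rw [iteratedDeriv_succ]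
    exact ih.deriv

lemma chi_bound {e : ℝ} (he : 0 < e) (k : ℕ) : ∃ C : ℝ, 0 ≤ C ∧ ∀ x, |iteratedDeriv k (chi e) x| ≤ C := by
  have h1 : Continuous (iteratedDeriv k (chi e)) :=
    (chi_contDiff e (n := (k : ℕ∞))).continuous_iteratedDeriv k le_rfl
  obtain ⟨C, hC⟩ := h1.bounded_above_of_compact_support (deriv_supp (chi_supp he) k)
  exact ⟨C, (norm_nonneg _).trans (hC 0), fun x => by simpa using hC x⟩

/-- the current of TARGET-A -/
def cur (e T J t : ℝ) : ℝ := J * chi e (t / T)

variable {e T J : ℝ}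

lemma cur_neg (t : ℝ) : cur e T J (-t) = cur e T J t := by
  unfold cur
  rw [neg_div, chi_neg]

lemma cur_nonneg (hJ : 0 ≤ J) (t : ℝ) : 0 ≤ cur e T J t := mul_nonneg hJ (chi_nonneg _ _)

lemma cur_le (hJ : 0 ≤ J) (t : ℝ) : cur e T J t ≤ J := by
  have := mul_le_mul_of_nonneg_left (chi_le_one e (t / T)) hJ
  simpa [cur] using this

lemma cur_eq (he : 0 < e) (hT : 0 < T) {t : ℝ} (ht : |t| ≤ (1 - 2 * e) * T) : cur e T J t = J := by
  unfold cur
  rw [chi_one he, mul_one]
  rw [abs_div, abs_of_pos hT, div_le_iff₀ hT]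
  exact ht

lemma cur_zero (he : 0 < e) (hT : 0 < T) {t : ℝ} (ht : (1 - e) * T ≤ |t|) : cur e T J t = 0 := by
  unfold cur
  rw [chi_zero he, mul_zero]
  rw [abs_div, abs_of_pos hT, le_div_iff₀ hT]
  exact ht

lemma cur_contDiff {n : ℕ∞} : ContDiff ℝ n (cur e T J) := by
  unfold cur
  exact contDiff_const.mul ((chi_contDiff e).comp (contDiff_id.div_const T))

lemma cur_supp (he : 0 < e) (hT : 0 < T) : HasCompactSupport (cur e T J) := by
  apply HasCompactSupport.of_support_subset_isCompact
    (isCompact_Icc (a := -((1 - e) * T)) (b := (1 - e) * T))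
  intro x hx
  by_contra hn
  apply hx
  apply cur_zero he hT
  rw [mem_Icc, not_and_or, not_le, not_le] at hn
  rcases hn with h | h
  · have := neg_abs_le x
    linarith
  · exact h.le.trans (le_abs_self x)

lemma cur_iter (k : ℕ) (t : ℝ) :
    iteratedDeriv k (cur e T J) t = J * ((T⁻¹) ^ k * iteratedDeriv k (chi e) (T⁻¹ * t)) := by
  have h1 : cur e T J = fun t => J * (fun t => chi e (T⁻¹ * t)) t := by
    funext t
    unfold cur
    rw [div_eq_inv_mul]
  rw [h1, iteratedDeriv_const_mul_field]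
  rw [iteratedDeriv_comp_const_mul ((chi_contDiff e (n := (k : ℕ∞))))]

/-- **derivatives of the current** -/
theorem cur_bound (he : 0 < e) (k : ℕ) : ∃ C : ℝ, 0 ≤ C ∧ ∀ T J : ℝ, 0 < T → 0 ≤ J → ∀ t,
    |iteratedDeriv k (cur e T J) t| ≤ C * J / T ^ k := by
  obtain ⟨C, hC0, hC⟩ := chi_bound he k
  refine ⟨C, hC0, fun T J hT hJ t => ?_⟩
  rw [cur_iter, abs_mul, abs_of_nonneg hJ, abs_mul, abs_of_nonneg (by positivity : (0:ℝ) ≤ T⁻¹ ^ k)]
  calc J * (T⁻¹ ^ k * |iteratedDeriv k (chi e) (T⁻¹ * t)|) ≤ J * (T⁻¹ ^ k * C) := by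
        gcongr
        exact hC _
    _ = C * J / T ^ k := by
        rw [inv_pow]
        field_simp

/-- derivatives of order `≤ 4`, one constant, `T ≥ 1` -/
theorem cur_bound4 (he : 0 < e) : ∃ C : ℝ, 0 ≤ C ∧ ∀ T J : ℝ, 1 ≤ T → 0 ≤ J → ∀ k ≤ 4, ∀ t,
    |iteratedDeriv k (cur e T J) t| ≤ C * J := by
  choose C hC0 hC using fun k => cur_bound (e := e) he k
  refine ⟨∑ k ∈ Finset.range 5, C k, Finset.sum_nonneg fun k _ => hC0 k, fun T J hT hJ k hk t => ?_⟩
  refine (hC k T J (by linarith) hJ t).trans ?_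
  have h1 : C k ≤ ∑ k ∈ Finset.range 5, C k :=
    Finset.single_le_sum (fun k _ => hC0 k) (Finset.mem_range.2 (by omega))
  calc C k * J / T ^ k ≤ C k * J := by
        apply div_le_self (mul_nonneg (hC0 k) hJ) (one_le_pow₀ hT)
    _ ≤ _ := by gcongr

lemma deriv_cont : Continuous (deriv (cur e T J)) :=
  (cur_contDiff (n := (1 : ℕ∞))).continuous_deriv le_rfl

lemma deriv_zero (he : 0 < e) (hT : 0 < T) {t : ℝ} (ht : (1 - e) * T < |t|) :
    deriv (cur e T J) t = 0 := by
  have h1 : cur e T J =ᶠ[nhds t] fun _ => 0 := by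
    have : {t : ℝ | (1 - e) * T < |t|} ∈ nhds t :=
      (isOpen_lt continuous_const continuous_abs).mem_nhds ht
    filter_upwards [this] with s hs
    exact cur_zero he hT (le_of_lt hs)
  rw [h1.deriv_eq, deriv_const]

/-- **energy of the current** -/
theorem cur_energy (he : 0 < e) (he1 : e < 1) : ∃ C : ℝ, 0 ≤ C ∧ ∀ T J : ℝ, 0 < T → 0 ≤ J →
    |∫ t, deriv (cur e T J) t * ∫ s, NUMF.V (t - s) * deriv (cur e T J) s| ≤ C * J ^ 2 / T := by
  obtain ⟨C, hC0, hC⟩ := cur_bound (e := e) he 1
  set A : ℝ := ∫ t, |NUMF.V t| with hA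
  have hA0 : 0 ≤ A := integral_nonneg fun t => abs_nonneg _
  refine ⟨C * (C * A) * 2, by positivity, fun T J hT hJ => ?_⟩
  have hd : ∀ t, |deriv (cur e T J) t| ≤ C * J / T := by
    intro t
    have := hC T J hT hJ t
    rwa [iteratedDeriv_one, pow_one] at this
  have hVi : Integrable NUMF.V := NUMF.V_integral.1
  have hin : ∀ t, |∫ s, NUMF.V (t - s) * deriv (cur e T J) s| ≤ A * (C * J / T) := by
    intro t
    have h1 : Integrable fun s => |NUMF.V (t - s)| := (hVi.comp_sub_left t).abs
    calc |∫ s, NUMF.V (t - s) * deriv (cur e T J) s|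
        ≤ ∫ s, |NUMF.V (t - s)| * (C * J / T) := by
          rw [← Real.norm_eq_abs]
          refine norm_integral_le_of_norm_le (h1.mul_const _) (Filter.Eventually.of_forall fun s => ?_)
          rw [Real.norm_eq_abs, abs_mul]
          exact mul_le_mul_of_nonneg_left (hd s) (abs_nonneg _)
      _ = A * (C * J / T) := by
          rw [integral_mul_const, hA, integral_sub_left_eq_self (fun s => |NUMF.V s|)]
  have hb : ∀ t, ‖deriv (cur e T J) t * ∫ s, NUMF.V (t - s) * deriv (cur e T J) s‖ ≤
      (Icc (-((1 - e) * T)) ((1 - e) * T)).indicator (fun _ => C * J / T * (A * (C * J / T))) t := by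
    intro t
    by_cases ht : t ∈ Icc (-((1 - e) * T)) ((1 - e) * T)
    · rw [indicator_of_mem ht, Real.norm_eq_abs, abs_mul]
      exact mul_le_mul (hd t) (hin t) (abs_nonneg _) (by positivity)
    · rw [indicator_of_notMem ht, deriv_zero he hT, zero_mul, norm_zero]
      rw [mem_Icc, not_and_or, not_le, not_le] at ht
      rcases ht with h | h
      · have := neg_abs_le t
        linarith
      · exact h.trans_le (le_abs_self t)
  have hi : Integrable ((Icc (-((1 - e) * T)) ((1 - e) * T)).indicator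
      (fun _ => C * J / T * (A * (C * J / T)))) := by
    rw [integrable_indicator_iff measurableSet_Icc]
    exact integrableOn_const (by simp)
  rw [← Real.norm_eq_abs]
  refine (norm_integral_le_of_norm_le hi (Filter.Eventually.of_forall hb)).trans ?_
  rw [integral_indicator measurableSet_Icc, setIntegral_const]
  have hle : (1 - e) * T ≥ 0 := by
    apply mul_nonneg (by linarith) hT.le
  rw [Real.volume_real_Icc_of_le (by linarith), smul_eq_mul]
  have h3 : (1 - e) * T - -((1 - e) * T) ≤ 2 * T := by nlinarith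
  calc ((1 - e) * T - -((1 - e) * T)) * (C * J / T * (A * (C * J / T)))
      ≤ (2 * T) * (C * J / T * (A * (C * J / T))) := by
        apply mul_le_mul_of_nonneg_right h3
        positivity
    _ = C * (C * A) * 2 * J ^ 2 / T := by
        field_simp

end

end NUCUR
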