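import Pool.Agent.NUP.MF.Dens

/-!
# Bounds for `eta = h / rho`, `rho = s P`

`1 / P` and its derivatives are `O(exp (8 |t| / 3))`, so for a current `h` with bounded derivatives
supported in `|t| ≤ R` the function `h / (s P)` and its derivatives are `O(exp (8 R / 3) / s)`.
-/

set_option autoImplicit false

open Polynomial

namespace NUCUR

noncomputable section

open NUMF

/-- `1 / cosh` -/
def sech (x : ℝ) : ℝ := (Real.cosh x)⁻¹

lemma sech_pos (x : ℝ) : 0 < sech x := inv_pos.mpr (Real.cosh_pos x)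

lemma sech_le_one (x : ℝ) : sech x ≤ 1 := inv_le_one_of_one_le₀ (Real.one_le_cosh x)

lemma hasDerivAt_sech (x : ℝ) : HasDerivAt sech (-(Real.tanh x) * sech x) x := by
  have h := (Real.hasDerivAt_cosh x).inv (Real.cosh_pos x).ne'
  have h0 := (Real.cosh_pos x).ne'
  refine h.congr_deriv ?_
  unfold sech
  rw [Real.tanh_eq_sinh_div_cosh]
  field_simp

lemma hasDerivAt_tanh (x : ℝ) : HasDerivAt Real.tanh (1 - Real.tanh x ^ 2) x := by
  have h := (Real.hasDerivAt_sinh x).div (Real.hasDerivAt_cosh x) (Real.cosh_pos x).ne'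
  have h0 := (Real.cosh_pos x).ne'
  have e : Real.tanh = fun y => Real.sinh y / Real.cosh y := by
    funext y; exact Real.tanh_eq_sinh_div_cosh y
  rw [e]
  refine h.congr_deriv ?_
  field_simp

lemma abs_tanh_le (x : ℝ) : |Real.tanh x| ≤ 1 := by
  rw [abs_le]
  exact ⟨(Real.neg_one_lt_tanh x).le, (Real.tanh_lt_one x).le⟩

/-- derivatives of `sech (a t)` are polynomials in `tanh` times `sech` -/
lemma iter_sech (a : ℝ) (k : ℕ) : ∃ p : Polynomial ℝ,
    iteratedDeriv k (fun t => sech (a * t)) = fun t => p.eval (Real.tanh (a * t)) * sech (a * t) := by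
  induction k with
  | zero =>
    refine ⟨1, ?_⟩
    funext t
    simp
  | succ k ih =>
    obtain ⟨p, hp⟩ := ih
    refine ⟨C a * (derivative p * (1 - X ^ 2) - p * X), ?_⟩
    rw [iteratedDeriv_succ, hp]
    funext t
    have h1 : HasDerivAt (fun t : ℝ => a * t) a t := by
      simpa using (hasDerivAt_id t).const_mul a
    have h2 := (hasDerivAt_sech (a * t)).comp t h1
    have h3 := (hasDerivAt_tanh (a * t)).comp t h1
    have h4 := (p.hasDerivAt (Real.tanh (a * t))).comp t h3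
    have h5 := (h4.mul h2).deriv
    simp only [Function.comp_def] at h5
    have e : (fun t => eval (Real.tanh (a * t)) p * sech (a * t)) =
        ((fun y => eval (Real.tanh (a * y)) p) * fun y => sech (a * y)) := rfl
    rw [e, h5]
    simp only [eval_mul, eval_C, eval_sub, eval_one, eval_pow, eval_X]
    ring

lemma poly_bound (p : Polynomial ℝ) : ∃ C : ℝ, 0 ≤ C ∧ ∀ x : ℝ, |x| ≤ 1 → |p.eval x| ≤ C := by
  obtain ⟨C, hC⟩ := (isCompact_Icc (a := (-1 : ℝ)) (b := 1)).exists_bound_of_continuousOn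
    (f := fun x => p.eval x) p.continuous.continuousOn
  refine ⟨|C|, abs_nonneg _, fun x hx => ?_⟩
  have := hC x (by rw [Set.mem_Icc, ← abs_le]; exact hx)
  rw [Real.norm_eq_abs] at this
  exact this.trans (le_abs_self _)

lemma contDiff_sech (a : ℝ) {n : ℕ∞} : ContDiff ℝ n (fun t => sech (a * t)) := by
  unfold sech
  apply ContDiff.inv
  · exact Real.contDiff_cosh.comp (contDiff_const.mul contDiff_id)
  · intro t
    exact (Real.cosh_pos _).ne'

lemma iter_cosh (a : ℝ) (k : ℕ) :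
    (iteratedDeriv k (fun t => Real.cosh (a * t)) = fun t => a ^ k * Real.cosh (a * t)) ∨
    (iteratedDeriv k (fun t => Real.cosh (a * t)) = fun t => a ^ k * Real.sinh (a * t)) := by
  induction k with
  | zero => left; funext t; simp
  | succ k ih =>
    have h1 : ∀ t : ℝ, HasDerivAt (fun t : ℝ => a * t) a t := by
      intro t
      simpa using (hasDerivAt_id t).const_mul a
    rcases ih with h | h
    · right
      rw [iteratedDeriv_succ, h]
      funext t
      have h2 := (((Real.hasDerivAt_cosh (a * t)).comp t (h1 t)).const_mul (a ^ k)).deriv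
      simp only [Function.comp_def] at h2
      rw [h2, pow_succ]
      ring
    · left
      rw [iteratedDeriv_succ, h]
      funext t
      have h2 := (((Real.hasDerivAt_sinh (a * t)).comp t (h1 t)).const_mul (a ^ k)).deriv
      simp only [Function.comp_def] at h2
      rw [h2, pow_succ]
      ring

lemma cosh_le_exp (x : ℝ) : Real.cosh x ≤ Real.exp |x| := by
  rw [Real.cosh_eq]
  have h1 : Real.exp x ≤ Real.exp |x| := Real.exp_le_exp.mpr (le_abs_self x)
  have h2 : Real.exp (-x) ≤ Real.exp |x| := Real.exp_le_exp.mpr (neg_le_abs x)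
  linarith

lemma abs_sinh_le_exp (x : ℝ) : |Real.sinh x| ≤ Real.exp |x| := by
  rw [Real.sinh_eq, abs_le]
  have h1 : Real.exp x ≤ Real.exp |x| := Real.exp_le_exp.mpr (le_abs_self x)
  have h2 : Real.exp (-x) ≤ Real.exp |x| := Real.exp_le_exp.mpr (neg_le_abs x)
  have h3 := Real.exp_pos x
  have h4 := Real.exp_pos (-x)
  constructor <;> linarith

/-- `1 / P` as an explicit function -/
lemma inv_P (t : ℝ) : (P t)⁻¹ =
    (√3 * Real.pi / 16) * (4 * Real.cosh (8 / 3 * t) - sech (8 / 3 * t)) := by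
  have h1 := (ch_pos t).ne'
  have h2 := (den_pos t).ne'
  have h3 := Real.pi_pos.ne'
  have h4 : √3 ≠ 0 := by positivity
  unfold P sech
  change _ = (√3 * Real.pi / 16) * (4 * ch t - (ch t)⁻¹)
  field_simp

lemma contDiff_cosh' (a : ℝ) {n : ℕ∞} : ContDiff ℝ n (fun t => Real.cosh (a * t)) :=
  Real.contDiff_cosh.comp (contDiff_const.mul contDiff_id)

lemma contDiff_inv_P {n : ℕ∞} : ContDiff ℝ n (fun t => (P t)⁻¹) := by
  have e : (fun t => (P t)⁻¹) = fun t =>
      (√3 * Real.pi / 16) * (4 * Real.cosh (8 / 3 * t) - sech (8 / 3 * t)) := by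
    funext t; exact inv_P t
  rw [e]
  exact contDiff_const.mul ((contDiff_const.mul (contDiff_cosh' _)).sub (contDiff_sech _))

/-- derivatives of `1 / P` are `O(exp (8 |t| / 3))` -/
theorem inv_P_bound (k : ℕ) : ∃ C : ℝ, 0 < C ∧ ∀ t : ℝ,
    |iteratedDeriv k (fun t => (P t)⁻¹) t| ≤ C * Real.exp (8 / 3 * |t|) := by
  obtain ⟨p, hp⟩ := iter_sech (8 / 3) k
  obtain ⟨B, hB0, hB⟩ := poly_bound p
  set c : ℝ := √3 * Real.pi / 16 with hc
  have hc0 : 0 < c := by have := Real.pi_pos; positivity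
  refine ⟨c * (4 * (8 / 3) ^ k + B), by positivity, fun t => ?_⟩
  have e : (fun t => (P t)⁻¹) = fun t =>
      c * (4 * Real.cosh (8 / 3 * t) - sech (8 / 3 * t)) := by
    funext t; exact inv_P t
  have h1 : iteratedDeriv k (fun t => (P t)⁻¹) t =
      c * (4 * iteratedDeriv k (fun t => Real.cosh (8 / 3 * t)) t -
        iteratedDeriv k (fun t => sech (8 / 3 * t)) t) := by
    rw [e, iteratedDeriv_const_mul_field]
    congr 1
    have h2 := iteratedDeriv_sub (n := k) (x := t) (f := fun t => 4 * Real.cosh (8 / 3 * t))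
      (g := fun t => sech (8 / 3 * t))
      (contDiff_const.mul (contDiff_cosh' (8 / 3) (n := k))).contDiffAt
      (contDiff_sech (8 / 3) (n := k)).contDiffAt
    have e2 : (fun t : ℝ => 4 * Real.cosh (8 / 3 * t) - sech (8 / 3 * t)) =
        (fun t => 4 * Real.cosh (8 / 3 * t)) - fun t => sech (8 / 3 * t) := rfl
    rw [e2, h2, iteratedDeriv_const_mul_field]
  have hexp1 : (1 : ℝ) ≤ Real.exp (8 / 3 * |t|) := Real.one_le_exp (by positivity)
  have habs : |8 / 3 * t| = 8 / 3 * |t| := by rw [abs_mul, abs_of_pos (by norm_num : (0:ℝ) < 8 / 3)]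
  have h3 : |iteratedDeriv k (fun t => Real.cosh (8 / 3 * t)) t| ≤
      (8 / 3) ^ k * Real.exp (8 / 3 * |t|) := by
    rcases iter_cosh (8 / 3) k with h | h
    · rw [h, abs_mul, abs_of_pos (by positivity : (0:ℝ) < (8 / 3) ^ k), ← habs]
      apply mul_le_mul_of_nonneg_left _ (by positivity)
      rw [abs_of_pos (Real.cosh_pos _)]
      exact cosh_le_exp _
    · rw [h, abs_mul, abs_of_pos (by positivity : (0:ℝ) < (8 / 3) ^ k), ← habs]
      apply mul_le_mul_of_nonneg_left _ (by positivity)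
      exact abs_sinh_le_exp _
  have h4 : |iteratedDeriv k (fun t => sech (8 / 3 * t)) t| ≤ B * Real.exp (8 / 3 * |t|) := by
    rw [hp, abs_mul]
    have h5 := hB _ (abs_tanh_le (8 / 3 * t))
    have h6 : |sech (8 / 3 * t)| ≤ Real.exp (8 / 3 * |t|) := by
      rw [abs_of_pos (sech_pos _)]
      exact (sech_le_one _).trans hexp1
    exact mul_le_mul h5 h6 (abs_nonneg _) hB0
  rw [h1, abs_mul, abs_of_pos hc0, mul_assoc]
  apply mul_le_mul_of_nonneg_left _ hc0.le
  calc |4 * iteratedDeriv k (fun t => Real.cosh (8 / 3 * t)) t -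
        iteratedDeriv k (fun t => sech (8 / 3 * t)) t|
      ≤ |4 * iteratedDeriv k (fun t => Real.cosh (8 / 3 * t)) t| +
        |iteratedDeriv k (fun t => sech (8 / 3 * t)) t| := abs_sub _ _
    _ ≤ 4 * ((8 / 3) ^ k * Real.exp (8 / 3 * |t|)) + B * Real.exp (8 / 3 * |t|) := by
        rw [abs_mul, abs_of_pos (by norm_num : (0:ℝ) < 4)]
        linarith
    _ = (4 * (8 / 3) ^ k + B) * Real.exp (8 / 3 * |t|) := by ring

/-- one constant for all orders up to `N` -/
theorem inv_P_bound_all (N : ℕ) : ∃ C : ℝ, 0 < C ∧ ∀ k ≤ N, ∀ t : ℝ,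
    |iteratedDeriv k (fun t => (P t)⁻¹) t| ≤ C * Real.exp (8 / 3 * |t|) := by
  choose C hC hb using inv_P_bound
  refine ⟨∑ k ∈ Finset.range (N + 1), C k, ?_, fun k hk t => ?_⟩
  · apply Finset.sum_pos (fun k _ => hC k)
    exact ⟨0, Finset.mem_range.mpr (by omega)⟩
  · refine (hb k t).trans ?_
    apply mul_le_mul_of_nonneg_right _ (Real.exp_pos _).le
    exact Finset.single_le_sum (fun k _ => (hC k).le) (Finset.mem_range.mpr (by omega))

/-- derivatives of a function vanishing outside `(-R, R)` vanish outside `[-R, R]` -/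
lemma iter_zero_out {f : ℝ → ℝ} {R : ℝ} (hf : ∀ t, R ≤ |t| → f t = 0) (k : ℕ) (t : ℝ)
    (ht : R < |t|) : iteratedDeriv k f t = 0 := by
  have h1 : f =ᶠ[nhds t] fun _ => (0 : ℝ) := by
    have ho : IsOpen {x : ℝ | R < |x|} := isOpen_lt continuous_const continuous_abs
    filter_upwards [ho.mem_nhds ht] with x hx
    exact hf x (le_of_lt hx)
  rw [h1.iteratedDeriv_eq]
  rw [iteratedDeriv_const]
  split_ifs <;> rfl

/-- **The eta bound.** -/
theorem eta_bound (N : ℕ) : ∃ C : ℝ, 0 < C ∧ ∀ h : ℝ → ℝ, ContDiff ℝ N h → ∀ B R s : ℝ, 0 < s →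
    (∀ k ≤ N, ∀ t, |iteratedDeriv k h t| ≤ B) → (∀ t, R ≤ |t| → h t = 0) →
    ∀ k ≤ N, ∀ t, |iteratedDeriv k (fun t => h t / (s * P t)) t| ≤
      C * B * Real.exp (8 / 3 * R) / s := by
  obtain ⟨C, hC, hb⟩ := inv_P_bound_all N
  refine ⟨2 ^ N * C, by positivity, ?_⟩
  intro h hh B R s hs hB hR k hk t
  have hB0 : 0 ≤ B := (abs_nonneg _).trans (hB 0 (Nat.zero_le _) 0)
  have hrhs : 0 ≤ 2 ^ N * C * B * Real.exp (8 / 3 * R) / s := by positivity
  by_cases ht : R < |t|
  · rw [iter_zero_out (R := R) (fun t ht => by rw [hR t ht, zero_div]) k t ht, abs_zero]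
    exact hrhs
  push Not at ht
  have e : (fun t => h t / (s * P t)) = fun t => s⁻¹ * (h t * (P t)⁻¹) := by
    funext t
    have := (P_pos t).ne'
    field_simp
  rw [e, iteratedDeriv_const_mul_field, abs_mul, abs_of_pos (inv_pos.mpr hs)]
  have h1 : ‖iteratedFDeriv ℝ k (fun t => h t * (P t)⁻¹) t‖ ≤
      ∑ i ∈ Finset.range (k + 1), (k.choose i : ℝ) * ‖iteratedFDeriv ℝ i h t‖ *
        ‖iteratedFDeriv ℝ (k - i) (fun t => (P t)⁻¹) t‖ := by
    apply norm_iteratedFDeriv_mul_le (N := N) hh (contDiff_inv_P (n := N)) t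
    exact_mod_cast hk
  rw [norm_iteratedFDeriv_eq_norm_iteratedDeriv, Real.norm_eq_abs] at h1
  have h2 : ∑ i ∈ Finset.range (k + 1), (k.choose i : ℝ) * ‖iteratedFDeriv ℝ i h t‖ *
        ‖iteratedFDeriv ℝ (k - i) (fun t => (P t)⁻¹) t‖ ≤
      ∑ i ∈ Finset.range (k + 1), (k.choose i : ℝ) * (B * (C * Real.exp (8 / 3 * R))) := by
    apply Finset.sum_le_sum
    intro i hi
    rw [Finset.mem_range] at hi
    rw [mul_assoc]
    apply mul_le_mul_of_nonneg_left _ (Nat.cast_nonneg _)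
    rw [norm_iteratedFDeriv_eq_norm_iteratedDeriv, norm_iteratedFDeriv_eq_norm_iteratedDeriv,
      Real.norm_eq_abs, Real.norm_eq_abs]
    have h3 := hB i (by omega) t
    have h4 := hb (k - i) (by omega) t
    have h5 : C * Real.exp (8 / 3 * |t|) ≤ C * Real.exp (8 / 3 * R) := by
      apply mul_le_mul_of_nonneg_left _ hC.le
      rw [Real.exp_le_exp]
      linarith
    exact mul_le_mul h3 (h4.trans h5) (abs_nonneg _) hB0
  have h6 : ∑ i ∈ Finset.range (k + 1), (k.choose i : ℝ) * (B * (C * Real.exp (8 / 3 * R))) =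
      2 ^ k * (B * (C * Real.exp (8 / 3 * R))) := by
    rw [← Finset.sum_mul]
    congr 1
    have := Nat.sum_range_choose k
    exact_mod_cast this
  have h7 : (2 : ℝ) ^ k ≤ 2 ^ N := pow_le_pow_right₀ (by norm_num) hk
  have h8 : |iteratedDeriv k (fun t => h t * (P t)⁻¹) t| ≤
      2 ^ N * (B * (C * Real.exp (8 / 3 * R))) := by
    refine h1.trans (h2.trans ?_)
    rw [h6]
    apply mul_le_mul_of_nonneg_right h7
    positivity
  calc s⁻¹ * |iteratedDeriv k (fun t => h t * (P t)⁻¹) t|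
      ≤ s⁻¹ * (2 ^ N * (B * (C * Real.exp (8 / 3 * R)))) :=
        mul_le_mul_of_nonneg_left h8 (inv_pos.mpr hs).le
    _ = 2 ^ N * C * B * Real.exp (8 / 3 * R) / s := by
        rw [div_eq_inv_mul]; ring

/-- The eta bound for currents supported in `|t| ≤ (1 - e) T`, `T = (3/8) log m`, and row number
`s ≥ m / 2`: everything is `O(B m^{-e})`. -/
theorem eta_bound_T (N : ℕ) : ∃ C : ℝ, 0 < C ∧ ∀ h : ℝ → ℝ, ContDiff ℝ N h → ∀ B e m s : ℝ,
    0 < m → m / 2 ≤ s →
    (∀ k ≤ N, ∀ t, |iteratedDeriv k h t| ≤ B) →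
    (∀ t, (1 - e) * (3 / 8 * Real.log m) ≤ |t| → h t = 0) →
    ∀ k ≤ N, ∀ t, |iteratedDeriv k (fun t => h t / (s * P t)) t| ≤ C * B * m ^ (-e) := by
  obtain ⟨C, hC, hb⟩ := eta_bound N
  refine ⟨2 * C, by positivity, ?_⟩
  intro h hh B e m s hm hs hB hR k hk t
  have hs0 : 0 < s := by linarith
  have hB0 : 0 ≤ B := (abs_nonneg _).trans (hB 0 (Nat.zero_le _) 0)
  refine (hb h hh B _ s hs0 hB hR k hk t).trans ?_
  have h1 : Real.exp (8 / 3 * ((1 - e) * (3 / 8 * Real.log m))) = m * m ^ (-e) := by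
    rw [Real.rpow_def_of_pos hm]
    nth_rewrite 2 [← Real.exp_log hm]
    rw [← Real.exp_add]
    congr 1
    ring
  rw [h1, div_le_iff₀ hs0]
  have h2 : 0 ≤ C * B * m ^ (-e) := by
    have := Real.rpow_nonneg hm.le (-e)
    positivity
  nlinarith

/-- smoothness of eta -/
theorem eta_contDiff {N : ℕ∞} {h : ℝ → ℝ} (hh : ContDiff ℝ N h) (s : ℝ) :
    ContDiff ℝ N (fun t => h t / (s * P t)) := by
  have e : (fun t => h t / (s * P t)) = fun t => s⁻¹ * (h t * (P t)⁻¹) := by
    funext t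
    rw [div_eq_mul_inv, mul_inv]
    ring
  rw [e]
  exact contDiff_const.mul (hh.mul contDiff_inv_P)

/-- support of eta -/
theorem eta_zero {h : ℝ → ℝ} {R : ℝ} (hR : ∀ t, R ≤ |t| → h t = 0) (s : ℝ) (t : ℝ)
    (ht : R ≤ |t|) : h t / (s * P t) = 0 := by
  rw [hR t ht, zero_div]

/-- the bounds of `1 / (s P)` everywhere -/
theorem inv_sP_bound (N : ℕ) : ∃ C : ℝ, 0 < C ∧ ∀ s : ℝ, 0 < s → ∀ k ≤ N, ∀ t : ℝ,
    |iteratedDeriv k (fun t => (s * P t)⁻¹) t| ≤ C * Real.exp (8 / 3 * |t|) / s := by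
  obtain ⟨C, hC, hb⟩ := inv_P_bound_all N
  refine ⟨C, hC, fun s hs k hk t => ?_⟩
  have e : (fun t => (s * P t)⁻¹) = fun t => s⁻¹ * (P t)⁻¹ := by
    funext t
    rw [mul_inv]
  rw [e, iteratedDeriv_const_mul_field, abs_mul, abs_of_pos (inv_pos.mpr hs), div_eq_inv_mul]
  exact mul_le_mul_of_nonneg_left (hb k hk t) (inv_pos.mpr hs).le

end

end NUCUR
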